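import Mathlib

/-!
# Character sums over difference sets: unions of geometric progressions

Let `χ` be a multiplicative character of a finite field and `χ(g) ≠ 1`.  For arbitrary weights
`β, γ` the sum of `β(b) γ(c) χ(g^i b - g^j c)` over `i, j < L` saves a factor of the order `L`: it is
multiplied by `χ(g)` when both indices are shifted, so that only the boundary of the square of the
pairs of indices contributes.  Hence the difference sum of every set which is a disjoint union of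
geometric progressions `b, b g, …, b g^(L-1)` has a saving `L`, whatever the size of the set.
-/

set_option autoImplicit false

namespace Pool.Agent.Results.MP_cb27ba_nt.GeometricDilates

open Finset

lemma norm_le_one {F : Type} [Field F] [Fintype F] (χ : MulChar F ℂ) (x : F) : ‖χ x‖ ≤ 1 := by
  classical
  by_cases hx : IsUnit x
  · obtain ⟨u, rfl⟩ := hx
    have h1 : χ u ^ (Fintype.card Fˣ) = 1 := by
      rw [← map_pow, ← Units.val_pow_eq_pow_val, pow_card_eq_one]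
      simp
    exact (Complex.norm_eq_one_of_pow_eq_one h1 Fintype.card_ne_zero).le
  · rw [MulChar.map_nonunit χ hx]
    simp

/-- the telescoping of a square of pairs of indices -/
lemma square (f : ℕ → ℕ → ℂ) (z : ℂ) (M : ℝ) (hf : ∀ i j, f (i + 1) (j + 1) = z * f i j)
    (hM : ∀ i j, ‖f i j‖ ≤ M) (L : ℕ) :
    ‖1 - z‖ * ‖∑ i ∈ range L, ∑ j ∈ range L, f i j‖ ≤ 4 * L * M := by
  have h1 : ∀ i, ∑ j ∈ range L, f i (j + 1) = ∑ j ∈ range L, f i j + f i L - f i 0 := by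
    intro i
    rw [← Finset.sum_range_succ, Finset.sum_range_succ']
    ring
  have h2 : z * ∑ i ∈ range L, ∑ j ∈ range L, f i j = ∑ i ∈ range L, ∑ j ∈ range L, f i j
      + ∑ j ∈ range L, f L j - ∑ j ∈ range L, f 0 j + ∑ i ∈ range L, (f (i + 1) L - f (i + 1) 0) := by
    have h3 : z * ∑ i ∈ range L, ∑ j ∈ range L, f i j =
        ∑ i ∈ range L, ∑ j ∈ range L, f (i + 1) (j + 1) := by
      rw [Finset.mul_sum]
      apply Finset.sum_congr rfl
      intro i _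
      rw [Finset.mul_sum]
      apply Finset.sum_congr rfl
      intro j _
      rw [hf]
    have h4 : ∑ i ∈ range L, ∑ j ∈ range L, f (i + 1) j = ∑ i ∈ range L, ∑ j ∈ range L, f i j
        + ∑ j ∈ range L, f L j - ∑ j ∈ range L, f 0 j := by
      rw [← Finset.sum_range_succ (fun i => ∑ j ∈ range L, f i j), Finset.sum_range_succ']
      ring
    rw [h3, ← h4, ← Finset.sum_add_distrib]
    apply Finset.sum_congr rfl
    intro i _
    rw [h1]
    ring
  have h5 : (1 - z) * ∑ i ∈ range L, ∑ j ∈ range L, f i j =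
      ∑ j ∈ range L, f 0 j - ∑ j ∈ range L, f L j - ∑ i ∈ range L, (f (i + 1) L - f (i + 1) 0) := by
    linear_combination -h2
  rw [← norm_mul, h5]
  have hb : ∀ g : ℕ → ℂ, ∀ K : ℝ, (∀ i, ‖g i‖ ≤ K) → ‖∑ j ∈ range L, g j‖ ≤ L * K := by
    intro g K hg
    calc ‖∑ j ∈ range L, g j‖ ≤ ∑ j ∈ range L, ‖g j‖ := norm_sum_le _ _
      _ ≤ ∑ j ∈ range L, K := Finset.sum_le_sum fun i _ => hg i
      _ = L * K := by simp
  have e1 := hb (fun j => f 0 j) M (fun j => hM 0 j)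
  have e2 := hb (fun j => f L j) M (fun j => hM L j)
  have e3 := hb (fun i => f (i + 1) L - f (i + 1) 0) (2 * M) (fun i => by
    have := norm_sub_le (f (i + 1) L) (f (i + 1) 0)
    linarith [hM (i + 1) L, hM (i + 1) 0])
  have e4 := norm_sub_le (∑ j ∈ range L, f 0 j - ∑ j ∈ range L, f L j)
    (∑ i ∈ range L, (f (i + 1) L - f (i + 1) 0))
  have e5 := norm_sub_le (∑ j ∈ range L, f 0 j) (∑ j ∈ range L, f L j)
  linarith

/-- the sums with weights -/
lemma weighted {F : Type} [Field F] [Fintype F] (χ : MulChar F ℂ) (g : F) (L : ℕ)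
    (B C : Finset F) (β γ : F → ℂ) :
    ‖1 - χ g‖ * ‖∑ i ∈ range L, ∑ j ∈ range L, ∑ b ∈ B, ∑ c ∈ C,
      β b * γ c * χ (g ^ i * b - g ^ j * c)‖ ≤ 4 * L * ((∑ b ∈ B, ‖β b‖) * ∑ c ∈ C, ‖γ c‖) := by
  apply square
  · intro i j
    rw [Finset.mul_sum]
    apply Finset.sum_congr rfl
    intro b _
    rw [Finset.mul_sum]
    apply Finset.sum_congr rfl
    intro c _
    have : g ^ (i + 1) * b - g ^ (j + 1) * c = g * (g ^ i * b - g ^ j * c) := by
      rw [pow_succ, pow_succ]; ring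
    rw [this, map_mul]
    ring
  · intro i j
    calc ‖∑ b ∈ B, ∑ c ∈ C, β b * γ c * χ (g ^ i * b - g ^ j * c)‖
        ≤ ∑ b ∈ B, ‖∑ c ∈ C, β b * γ c * χ (g ^ i * b - g ^ j * c)‖ := norm_sum_le _ _
      _ ≤ ∑ b ∈ B, ∑ c ∈ C, ‖β b‖ * ‖γ c‖ := by
          apply Finset.sum_le_sum
          intro b _
          refine (norm_sum_le _ _).trans (Finset.sum_le_sum fun c _ => ?_)
          rw [norm_mul, norm_mul]
          exact mul_le_of_le_one_right (by positivity) (norm_le_one χ _)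
      _ = (∑ b ∈ B, ‖β b‖) * ∑ c ∈ C, ‖γ c‖ := by
          rw [Finset.sum_mul_sum]

/-- replacing a set by another one -/
lemma replace {F : Type} [DecidableEq F] (h : F → ℂ) (K : ℝ) (hh : ∀ x, ‖h x‖ ≤ K)
    (A B : Finset F) :
    ‖∑ a ∈ A, h a - ∑ b ∈ B, h b‖ ≤ (symmDiff A B).card * K := by
  have h1 : ∑ a ∈ A, h a - ∑ b ∈ B, h b = ∑ a ∈ A \ B, h a - ∑ b ∈ B \ A, h b := by
    have e1 := Finset.sum_inter_add_sum_sdiff A B h
    have e2 := Finset.sum_inter_add_sum_sdiff B A h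
    rw [Finset.inter_comm B A] at e2
    rw [← e1, ← e2]
    ring
  rw [h1]
  have hb : ∀ S : Finset F, ‖∑ a ∈ S, h a‖ ≤ S.card * K := by
    intro S
    calc ‖∑ a ∈ S, h a‖ ≤ ∑ a ∈ S, ‖h a‖ := norm_sum_le _ _
      _ ≤ ∑ a ∈ S, K := Finset.sum_le_sum fun i _ => hh i
      _ = S.card * K := by simp
  have hc : ((symmDiff A B).card : ℝ) = (A \ B).card + (B \ A).card := by
    rw [symmDiff_def, Finset.sup_eq_union, Finset.card_union_of_disjoint (disjoint_sdiff_sdiff)]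
    push_cast
    rfl
  rw [hc, add_mul]
  exact (norm_sub_le _ _).trans (add_le_add (hb _) (hb _))

/-- sets which are almost invariant under a dilation -/
lemma invariant {F : Type} [Field F] [Fintype F] [DecidableEq F] (χ : MulChar F ℂ) (g : F)
    (hg : g ≠ 0) (A B : Finset F) :
    ‖1 - χ g‖ * ‖∑ a ∈ A, ∑ b ∈ B, χ (a - b)‖ ≤
      (symmDiff A (A.image (g * ·))).card * B.card + A.card * (symmDiff B (B.image (g * ·))).card := by
  have hinj : Function.Injective (fun x : F => g * x) := mul_right_injective₀ hg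
  set gA := A.image (g * ·) with hgA
  set gB := B.image (g * ·) with hgB
  have h1 : χ g * ∑ a ∈ A, ∑ b ∈ B, χ (a - b) = ∑ a ∈ gA, ∑ b ∈ gB, χ (a - b) := by
    rw [hgA, Finset.sum_image (fun x _ y _ h => hinj h), Finset.mul_sum]
    apply Finset.sum_congr rfl
    intro a _
    rw [hgB, Finset.sum_image (fun x _ y _ h => hinj h), Finset.mul_sum]
    apply Finset.sum_congr rfl
    intro b _
    rw [← map_mul, mul_sub]
  have h2 : (1 - χ g) * ∑ a ∈ A, ∑ b ∈ B, χ (a - b) =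
      (∑ a ∈ A, ∑ b ∈ B, χ (a - b) - ∑ a ∈ gA, ∑ b ∈ B, χ (a - b)) +
      (∑ b ∈ B, ∑ a ∈ gA, χ (a - b) - ∑ b ∈ gB, ∑ a ∈ gA, χ (a - b)) := by
    rw [sub_mul, one_mul, h1, Finset.sum_comm (s := B) (t := gA), Finset.sum_comm (s := gB) (t := gA)]
    ring
  rw [← norm_mul, h2]
  have hb : ∀ (S : Finset F) (h : F → ℂ), (∀ x, ‖h x‖ ≤ 1) → ‖∑ a ∈ S, h a‖ ≤ S.card := by
    intro S h hh
    calc ‖∑ a ∈ S, h a‖ ≤ ∑ a ∈ S, ‖h a‖ := norm_sum_le _ _
      _ ≤ ∑ a ∈ S, (1 : ℝ) := Finset.sum_le_sum fun i _ => hh i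
      _ = S.card := by simp
  have e1 := replace (fun a => ∑ b ∈ B, χ (a - b)) B.card
    (fun x => hb B _ fun y => norm_le_one χ _) A gA
  have e2 := replace (fun b => ∑ a ∈ gA, χ (a - b)) A.card (fun x => by
    have := hb gA (fun a => χ (a - x)) fun y => norm_le_one χ _
    rwa [hgA, Finset.card_image_of_injective _ hinj] at this) B gB
  refine (norm_add_le _ _).trans (add_le_add e1 ?_)
  rw [mul_comm (A.card : ℝ)]
  exact e2

theorem result :
    (∀ (F : Type) [Field F] [Fintype F] (χ : MulChar F ℂ) (g : F) (L : ℕ) (B C : Finset F)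
      (β γ : F → ℂ),
      ‖1 - χ g‖ * ‖∑ i ∈ range L, ∑ j ∈ range L, ∑ b ∈ B, ∑ c ∈ C,
        β b * γ c * χ (g ^ i * b - g ^ j * c)‖ ≤
        4 * L * ((∑ b ∈ B, ‖β b‖) * ∑ c ∈ C, ‖γ c‖)) ∧
    (∀ (F : Type) [Field F] [Fintype F] [DecidableEq F] (χ : MulChar F ℂ) (g : F), g ≠ 0 →
      ∀ A B : Finset F, ‖1 - χ g‖ * ‖∑ a ∈ A, ∑ b ∈ B, χ (a - b)‖ ≤
        (symmDiff A (A.image (g * ·))).card * B.card +
          A.card * (symmDiff B (B.image (g * ·))).card) ∧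
    (∀ ε : ℝ, 0 < ε → ∃ P : ℕ, ∀ p : ℕ, p.Prime → P ≤ p →
      ∀ (χ : DirichletCharacter ℂ p) (g : ZMod p), (p : ℝ) ^ (-ε / 2) ≤ ‖1 - χ g‖ →
        ∀ (L : ℕ) (B A : Finset (ZMod p)), (p : ℝ) ^ ε ≤ L → B.Nonempty →
          (∀ b ∈ B, ∀ c ∈ B, ∀ i < L, ∀ j < L, g ^ i * b = g ^ j * c → b = c ∧ i = j) →
          (∀ a, a ∈ A ↔ ∃ b ∈ B, ∃ i < L, a = g ^ i * b) →
          ‖∑ a ∈ A, ∑ b ∈ A, χ (a - b)‖ < (A.card : ℝ) ^ (2 - ε / 4)) := by
  refine ⟨fun F _ _ χ g L B C β γ => weighted χ g L B C β γ,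
    fun F _ _ _ χ g hg A B => invariant χ g hg A B, ?_⟩
  intro ε hε
  obtain ⟨P, hP⟩ := exists_nat_gt ((4 : ℝ) ^ (4 / ε))
  refine ⟨P, fun p hp hpP χ g hχ L B A hL hB hinj hA => ?_⟩
  have : Fact p.Prime := ⟨hp⟩
  have hp1 : (1 : ℝ) < p := by exact_mod_cast hp.one_lt
  have hp0 : (0 : ℝ) < p := by linarith
  have hAeq : A = (range L ×ˢ B).image (fun x => g ^ x.1 * x.2) := by
    ext a
    rw [hA, Finset.mem_image]
    constructor
    · rintro ⟨b, hb, i, hi, rfl⟩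
      exact ⟨(i, b), Finset.mem_product.2 ⟨Finset.mem_range.2 hi, hb⟩, rfl⟩
    · rintro ⟨⟨i, b⟩, hx, rfl⟩
      rw [Finset.mem_product, Finset.mem_range] at hx
      exact ⟨b, hx.2, i, hx.1, rfl⟩
  have hinj' : Set.InjOn (fun x : ℕ × ZMod p => g ^ x.1 * x.2) (range L ×ˢ B : Finset _) := by
    rintro ⟨i, b⟩ hx ⟨j, c⟩ hy h
    rw [Finset.mem_coe, Finset.mem_product, Finset.mem_range] at hx hy
    obtain ⟨h1, h2⟩ := hinj b hx.2 c hy.2 i hx.1 j hy.1 h
    simp only [Prod.mk.injEq]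
    exact ⟨h2, h1⟩
  have hsum : ∀ h : ZMod p → ℂ, ∑ a ∈ A, h a = ∑ i ∈ range L, ∑ b ∈ B, h (g ^ i * b) := by
    intro h
    rw [hAeq, Finset.sum_image hinj', Finset.sum_product]
  have hcard : (A.card : ℝ) = L * B.card := by
    rw [hAeq, Finset.card_image_of_injOn hinj', Finset.card_product, Finset.card_range]
    push_cast
    rfl
  have hS : ∑ a ∈ A, ∑ b ∈ A, χ (a - b) = ∑ i ∈ range L, ∑ j ∈ range L, ∑ b ∈ B, ∑ c ∈ B,
      (1 : ZMod p → ℂ) b * (1 : ZMod p → ℂ) c * χ (g ^ i * b - g ^ j * c) := by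
    rw [hsum]
    apply Finset.sum_congr rfl
    intro i _
    rw [Finset.sum_comm (s := range L) (t := B)]
    apply Finset.sum_congr rfl
    intro b _
    rw [hsum]
    simp
  have h1 := weighted χ g L B B 1 1
  rw [← hS] at h1
  have hB1 : ∑ b ∈ B, ‖(1 : ZMod p → ℂ) b‖ = B.card := by simp
  rw [hB1] at h1
  have hLpos : (0 : ℝ) < L := lt_of_lt_of_le (Real.rpow_pos_of_pos hp0 ε) hL
  have hBpos : (0 : ℝ) < B.card := by exact_mod_cast hB.card_pos
  have hApos : (0 : ℝ) < A.card := by rw [hcard]; positivity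
  have hAp : (A.card : ℝ) ≤ p := by
    have := Finset.card_le_univ A
    rw [ZMod.card] at this
    exact_mod_cast this
  have hz : (0 : ℝ) < ‖1 - χ g‖ := lt_of_lt_of_le (Real.rpow_pos_of_pos hp0 _) hχ
  -- `‖1 - χ g‖ |S| ≤ 4 |A|^2 p^{-ε}`
  have h2 : ‖1 - χ g‖ * ‖∑ a ∈ A, ∑ b ∈ A, χ (a - b)‖ ≤ 4 * (A.card : ℝ) ^ 2 * (p : ℝ) ^ (-ε) := by
    refine h1.trans ?_
    have h3 : 1 ≤ (L : ℝ) * (p : ℝ) ^ (-ε) := by
      have h4 : (p : ℝ) ^ ε * (p : ℝ) ^ (-ε) = 1 := by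
        rw [← Real.rpow_add hp0, add_neg_cancel, Real.rpow_zero]
      rw [← h4]
      exact mul_le_mul_of_nonneg_right hL (Real.rpow_nonneg hp0.le _)
    rw [hcard]
    have h5 : 4 * (L : ℝ) * ((B.card : ℝ) * B.card) * 1 ≤
        4 * (L : ℝ) * ((B.card : ℝ) * B.card) * ((L : ℝ) * (p : ℝ) ^ (-ε)) :=
      mul_le_mul_of_nonneg_left h3 (by positivity)
    calc 4 * (L : ℝ) * ((B.card : ℝ) * B.card) = 4 * (L : ℝ) * ((B.card : ℝ) * B.card) * 1 := by ring
      _ ≤ _ := h5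
      _ = _ := by ring
  have h6 : (p : ℝ) ^ (-ε / 2) * ‖∑ a ∈ A, ∑ b ∈ A, χ (a - b)‖ ≤
      4 * (A.card : ℝ) ^ 2 * (p : ℝ) ^ (-ε) :=
    (mul_le_mul_of_nonneg_right hχ (norm_nonneg _)).trans h2
  have h7 : ‖∑ a ∈ A, ∑ b ∈ A, χ (a - b)‖ ≤ 4 * (A.card : ℝ) ^ 2 * (p : ℝ) ^ (-ε / 2) := by
    have h8 : (p : ℝ) ^ (-ε) = (p : ℝ) ^ (-ε / 2) * (p : ℝ) ^ (-ε / 2) := by
      rw [← Real.rpow_add hp0]
      congr 1
      ring
    rw [h8] at h6
    have h9 : 0 < (p : ℝ) ^ (-ε / 2) := Real.rpow_pos_of_pos hp0 _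
    have h10 : (p : ℝ) ^ (-ε / 2) * ‖∑ a ∈ A, ∑ b ∈ A, χ (a - b)‖ ≤
        (p : ℝ) ^ (-ε / 2) * (4 * (A.card : ℝ) ^ 2 * (p : ℝ) ^ (-ε / 2)) := by
      linarith [h6]
    exact le_of_mul_le_mul_left h10 h9
  have h11 : (4 : ℝ) < (p : ℝ) ^ (ε / 4) := by
    have h12 : (4 : ℝ) ^ (4 / ε) < p := lt_of_lt_of_le hP (by exact_mod_cast hpP)
    have h13 := Real.rpow_lt_rpow (by positivity) h12 (by positivity : 0 < ε / 4)
    rw [← Real.rpow_mul (by norm_num)] at h13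
    have h14 : 4 / ε * (ε / 4) = 1 := by field_simp
    rw [h14, Real.rpow_one] at h13
    exact h13
  calc ‖∑ a ∈ A, ∑ b ∈ A, χ (a - b)‖ ≤ 4 * ((A.card : ℝ) ^ 2 * (p : ℝ) ^ (-ε / 2)) := by
        linarith [h7]
    _ < (p : ℝ) ^ (ε / 4) * ((A.card : ℝ) ^ 2 * (p : ℝ) ^ (-ε / 2)) :=
        mul_lt_mul_of_pos_right h11 (by
          have := Real.rpow_pos_of_pos hp0 (-ε / 2)
          positivity)
    _ = (A.card : ℝ) ^ 2 * (p : ℝ) ^ (-(ε / 4)) := by
        have : (p : ℝ) ^ (-(ε / 4)) = (p : ℝ) ^ (ε / 4) * (p : ℝ) ^ (-ε / 2) := by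
          rw [← Real.rpow_add hp0]
          congr 1
          ring
        rw [this]; ring
    _ ≤ (A.card : ℝ) ^ 2 * (A.card : ℝ) ^ (-(ε / 4)) := by
        apply mul_le_mul_of_nonneg_left _ (by positivity)
        exact Real.rpow_le_rpow_of_nonpos hApos hAp (by linarith)
    _ = (A.card : ℝ) ^ (2 - ε / 4) := by
        rw [sub_eq_add_neg, Real.rpow_add hApos]
        norm_num

end Pool.Agent.Results.MP_cb27ba_nt.GeometricDilates
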