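import Pool.Agent.X222.PR.Diff

/-!
# Power saving for difference sums: sets covered evenly by translates of random points

Let `R i`, `i < k`, be arbitrary sets of residues modulo `p` with at least `M p^(1/2+ε)` elements,
`M ≥ 1` (for instance `R i = s i + J` with arbitrary `s i` and one set `J`: random perturbations of
arbitrary points). For all but a proportion `p^(-log p)` of the choices of points `x i ∈ R i`:

(1) for every nonprincipal `χ`, every `0 < η ≤ 1`, every set `I` of at least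
`C η^(-C) (log p + k/M)` indices and every set `B` of at least `C η^(-C) log p` residues,
`∑_{i ∈ I} |∑_{b ∈ B} χ(x_i + b)| ≤ η |I||B|`;

(2) for every nonprincipal `χ`, every set `I` of at least `p^ε (1 + k/M)` indices and every set `A`
covered evenly by translates of `T = {x_i : i ∈ I}`: if `|A| ≥ p^ε` then
`|∑_{a,b ∈ A} χ(a-b)| < |A|^(2-τ)`, and `∑_{a ∈ A} |∑_{b ∈ B} χ(a-b)| ≤ p^(-τ) |A||B|` for all `B`
with `|B| ≥ p^ε`.  Covered evenly: `A ⊆ X + T` for some `X` with `|X||I| ≤ p^τ |A|` (for instance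
`A = T`, or the direct sums `A = X + T` with arbitrary `X`), or `|A + T| ≤ p^τ |A|`, or
`|A - T| ≤ p^τ |A|`.

Outline: if the sum in (1) is large then it is large for a subset of `B` with `n` elements, for a
suitable `n`; by Weil's bound for moments of order up to `log p` the numbers `z` for which the sum
of `χ(z+b)` over this subset is large are few; random points rarely meet one of these sets often.
-/

set_option autoImplicit false

namespace Pool.Agent.Results.MP_cb27ba_nt.RandomTranslates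

open Finset

/-- `A` is covered evenly by translates of the family of points `x i`, `i ∈ I`, up to the factor
`σ` -/
def Covered {p k : ℕ} (x : Fin k → ZMod p) (I : Finset (Fin k)) (A : Finset (ZMod p)) (σ : ℝ) :
    Prop :=
  (∃ X : Finset (ZMod p), (∀ a ∈ A, ∃ y ∈ X, ∃ i ∈ I, a = y + x i) ∧
    (X.card : ℝ) * I.card ≤ σ * A.card) ∨
  (((A ×ˢ I).image fun w => w.1 + x w.2).card : ℝ) ≤ σ * A.card ∨
  (((A ×ˢ I).image fun w => w.1 - x w.2).card : ℝ) ≤ σ * A.card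

open Classical in
theorem result :
    (∀ ε : ℝ, 0 < ε → ε ≤ 1 → ∃ C : ℝ, 1 ≤ C ∧ ∃ p₀ : ℕ, ∀ (p : ℕ) [Fact p.Prime], p₀ ≤ p →
      ∀ (k : ℕ) (R : Fin k → Finset (ZMod p)) (M : ℝ), 1 ≤ M →
        (∀ i, M * (p : ℝ) ^ (1 / 2 + ε) ≤ (R i).card) →
        ((((Fintype.piFinset R).filter fun x =>
          ∃ χ : DirichletCharacter ℂ p, χ ≠ 1 ∧
            ∃ (I : Finset (Fin k)) (B : Finset (ZMod p)) (η : ℝ),
            0 < η ∧ η ≤ 1 ∧ C * η ^ (-C) * Real.log p ≤ B.card ∧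
            C * η ^ (-C) * (Real.log p + k / M) ≤ I.card ∧
            η * (I.card * B.card) < ∑ i ∈ I, ‖∑ b ∈ B, χ (x i + b)‖).card : ℕ) : ℝ) ≤
          (p : ℝ) ^ (-Real.log p) * ∏ i, ((R i).card : ℝ)) ∧
    (∀ ε : ℝ, 0 < ε → ∃ τ : ℝ, 0 < τ ∧ ∃ p₀ : ℕ, ∀ (p : ℕ) [Fact p.Prime], p₀ ≤ p →
      ∀ (k : ℕ) (R : Fin k → Finset (ZMod p)) (M : ℝ), 1 ≤ M →
        (∀ i, M * (p : ℝ) ^ (1 / 2 + ε) ≤ (R i).card) →
        ((((Fintype.piFinset R).filter fun x =>
          ∃ (χ : DirichletCharacter ℂ p) (I : Finset (Fin k)) (A : Finset (ZMod p)), χ ≠ 1 ∧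
            (p : ℝ) ^ ε * (1 + k / M) ≤ I.card ∧ Covered x I A ((p : ℝ) ^ τ) ∧
            (((p : ℝ) ^ ε ≤ A.card ∧ (A.card : ℝ) ^ (2 - τ) ≤ ‖∑ a ∈ A, ∑ b ∈ A, χ (a - b)‖) ∨
            ∃ B : Finset (ZMod p), (p : ℝ) ^ ε ≤ B.card ∧
              (p : ℝ) ^ (-τ) * (A.card * B.card) <
                ∑ a ∈ A, ‖∑ b ∈ B, χ (a - b)‖)).card : ℕ) : ℝ) ≤
          (p : ℝ) ^ (-Real.log p) * ∏ i, ((R i).card : ℝ)) := by
  refine ⟨fun ε hε hε1 => ?_, fun ε hε => ?_⟩
  · obtain ⟨C, hC, p₀, -, h⟩ := Pool.Agent.X222.PR.perturbed ε hε hε1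
    exact ⟨C, hC, p₀, fun p _ hp => h p hp⟩
  · obtain ⟨τ, hτ, p₀, h⟩ := Pool.Agent.X222.PR.diff ε hε
    exact ⟨τ, hτ, p₀, fun p _ hp => h p hp⟩

end Pool.Agent.Results.MP_cb27ba_nt.RandomTranslates
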