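import Pool.Agent.X159.PG.Two

/-!
# Difference sets against pairs of sets

Q1 (power saving for `∑_{a,b ∈ A} χ(a - b)`, all sets with more than `p^δ` elements) is equivalent
to its case of the sets with exactly `⌈p^δ⌉` elements and of the even characters, and to the
power saving for `∑_{a ∈ A, b ∈ B} u(a) v(b) χ(a - b)` for all pairs of sets with more than `p^δ`
elements, all coefficients bounded by `1` and all even nontrivial characters.
-/

set_option autoImplicit false

namespace Pool.Agent.Results.MP_cb27ba_nt.TwoSetsEvenCharacters

open Pool.Agent.X159.PG

theorem result :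
    (DifferenceSets ↔ SmallSets) ∧ (DifferenceSets ↔ TwoSets) := pg_main

end Pool.Agent.Results.MP_cb27ba_nt.TwoSetsEvenCharacters
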